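import Mathlib

set_option autoImplicit false

namespace Pool.Agent.Results.MP_1a9d8b_co.RatioAtLeastTwo

open scoped ENNReal

variable {V : Type}

/-- No two edges of the set `F` cross, the vertices being ordered along the spine by `pos`. -/
def CrossingFree (pos : V → ℕ) (F : Set (Sym2 V)) : Prop :=
  ∀ u v x y : V, s(u, v) ∈ F → s(x, y) ∈ F → ¬(pos u < pos x ∧ pos x < pos v ∧ pos v < pos y)

/-- The page `p` of the assignment `col` of the edges of `G` to pages. -/
def page (G : SimpleGraph V) (col : Sym2 V → ℕ) (p : ℕ) : SimpleGraph V :=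
  SimpleGraph.fromEdgeSet {e | e ∈ G.edgeSet ∧ col e = p}

/-- The edges of a connected component of a graph. -/
def componentEdges (H : SimpleGraph V) (C : H.ConnectedComponent) : Set (Sym2 V) :=
  {e | e ∈ H.edgeSet ∧ ∀ v ∈ e, H.connectedComponentMk v = C}

/-- Book embedding: an injective spine position and pages without crossings. -/
def IsBook (G : SimpleGraph V) (pos : V → ℕ) (col : Sym2 V → ℕ) : Prop :=
  Function.Injective pos ∧ ∀ p, CrossingFree pos (page G col p).edgeSet

/-- Union embedding: on every page every connected component has no crossings. -/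
def IsUnionEmbedding (G : SimpleGraph V) (pos : V → ℕ) (col : Sym2 V → ℕ) : Prop :=
  Function.Injective pos ∧
    ∀ p, ∀ C : (page G col p).ConnectedComponent, CrossingFree pos (componentEdges _ C)

/-- The pages which contain an edge at `v`. -/
def pagesAt (G : SimpleGraph V) (col : Sym2 V → ℕ) (v : V) : Set ℕ :=
  {p | ∃ w, G.Adj v w ∧ col s(v, w) = p}

/-- The local page number. -/
noncomputable def pnLocal (G : SimpleGraph V) : ℕ :=
  sInf {k | ∃ (pos : V → ℕ) (col : Sym2 V → ℕ), IsBook G pos col ∧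
    ∀ v, (pagesAt G col v).encard ≤ k}

/-- The union page number. -/
noncomputable def pnUnion (G : SimpleGraph V) : ℕ :=
  sInf {k | ∃ (pos : V → ℕ) (col : Sym2 V → ℕ), IsUnionEmbedding G pos col ∧
    ∀ e ∈ G.edgeSet, col e < k}

/-- The largest ratio of union page number to local page number. -/
noncomputable def rho : ℝ≥0∞ :=
  ⨆ (W : Type) (_ : Finite W) (G : SimpleGraph W) (_ : G ≠ ⊥),
    (pnUnion G : ℝ≥0∞) / (pnLocal G : ℝ≥0∞)

/-! ### The graphs -/

/-- Vertices of the example. -/
abbrev Vx (d N M : ℕ) : Type := Fin d ⊕ (Fin N ⊕ (Finset (Fin N) × Fin M))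

/-- Parent and child. -/
inductive Down (d N M : ℕ) : Vx d N M → Vx d N M → Prop
  | one (a : Fin d) (v : Fin N) : Down d N M (Sum.inl a) (Sum.inr (Sum.inl v))
  | two (v : Fin N) (S : Finset (Fin N)) (j : Fin M) (h : v ∈ S) (hc : S.card = d + 1) :
      Down d N M (Sum.inr (Sum.inl v)) (Sum.inr (Sum.inr (S, j)))

/-- Level of a vertex. -/
def lev {d N M : ℕ} : Vx d N M → ℕ
  | Sum.inl _ => 0
  | Sum.inr (Sum.inl _) => 1
  | Sum.inr (Sum.inr _) => 2

theorem Down.lev_eq {d N M : ℕ} {x y : Vx d N M} (h : Down d N M x y) : lev y = lev x + 1 := by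
  cases h <;> rfl

/-- The example. -/
def Gr (d N M : ℕ) : SimpleGraph (Vx d N M) := SimpleGraph.fromRel (Down d N M)

theorem gr_adj {d N M : ℕ} {x y : Vx d N M} :
    (Gr d N M).Adj x y ↔ Down d N M x y ∨ Down d N M y x := by
  unfold Gr
  rw [SimpleGraph.fromRel_adj]
  constructor
  · exact fun h => h.2
  · intro h
    refine ⟨?_, h⟩
    rintro rfl
    rcases h with h | h <;> exact absurd h.lev_eq (by omega)

/-- the number of the parent in an edge -/
noncomputable def starCol (d N M : ℕ) (e : Sym2 (Vx d N M)) : ℕ := by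
  classical
  exact if h : ∃ x y, e = s(x, y) ∧ Down d N M x y then (Fintype.equivFin (Vx d N M) h.choose : ℕ)
    else 0

theorem starCol_eq {d N M : ℕ} {x y : Vx d N M} (h : Down d N M x y) :
    starCol d N M s(x, y) = (Fintype.equivFin (Vx d N M) x : ℕ) := by
  classical
  unfold starCol
  have hex : ∃ x' y', s(x, y) = s(x', y') ∧ Down d N M x' y' := ⟨x, y, rfl, h⟩
  rw [dif_pos hex]
  obtain ⟨y', h1, h2⟩ := hex.choose_spec
  have : hex.choose = x := by
    rcases Sym2.eq_iff.1 h1 with ⟨h3, _⟩ | ⟨h3, h4⟩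
    · exact h3.symm
    · exfalso
      have e1 := h2.lev_eq
      have e2 := h.lev_eq
      rw [← h3, ← h4] at e1
      omega
  rw [this]

theorem adj_starCol {d N M : ℕ} {u v : Vx d N M} {p : ℕ}
    (h : s(u, v) ∈ (page (Gr d N M) (starCol d N M) p).edgeSet) :
    ∃ x, (Fintype.equivFin (Vx d N M) x : ℕ) = p ∧ (x = u ∨ x = v) := by
  unfold page at h
  rw [SimpleGraph.edgeSet_fromEdgeSet] at h
  obtain ⟨⟨h1, h2⟩, _⟩ := h
  rw [SimpleGraph.mem_edgeSet, gr_adj] at h1
  rcases h1 with h1 | h1
  · exact ⟨u, by rw [← h2, starCol_eq h1], Or.inl rfl⟩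
  · exact ⟨v, by rw [← h2, Sym2.eq_swap, starCol_eq h1], Or.inr rfl⟩

theorem pnLocal_le (d N M : ℕ) : pnLocal (Gr d N M) ≤ d + 1 := by
  classical
  apply Nat.sInf_le
  refine ⟨fun x => (Fintype.equivFin (Vx d N M) x : ℕ), starCol d N M, ⟨?_, ?_⟩, ?_⟩
  · intro x y hxy
    exact (Fintype.equivFin (Vx d N M)).injective (Fin.ext hxy)
  · rintro p u v x y h1 h2 ⟨h3, h4, h5⟩
    obtain ⟨z, hz, hz'⟩ := adj_starCol h1
    obtain ⟨w, hw, hw'⟩ := adj_starCol h2
    have hzw : z = w := (Fintype.equivFin (Vx d N M)).injective (Fin.ext (hz.trans hw.symm))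
    subst hzw
    beta_reduce at h3 h4 h5
    rcases hz' with rfl | rfl <;> rcases hw' with rfl | rfl <;> omega
  · intro v
    -- the pages at `v` are those of its parents and, if it has children, its own
    set E : Vx d N M → ℕ := fun x => (Fintype.equivFin (Vx d N M) x : ℕ) with hE
    rcases v with a | v | ⟨S, j⟩
    · have : pagesAt (Gr d N M) (starCol d N M) (Sum.inl a) ⊆ {E (Sum.inl a)} := by
        rintro p ⟨w, hw, rfl⟩
        rw [gr_adj] at hw
        rcases hw with hw | hw
        · rw [starCol_eq hw]; rfl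
        · cases hw
      refine (Set.encard_le_encard this).trans ?_
      rw [Set.encard_singleton]
      exact_mod_cast Nat.succ_le_succ (Nat.zero_le d)
    · have : pagesAt (Gr d N M) (starCol d N M) (Sum.inr (Sum.inl v)) ⊆
          ((insert (E (Sum.inr (Sum.inl v))) (Finset.univ.image fun a : Fin d => E (Sum.inl a)) :
            Finset ℕ) : Set ℕ) := by
        rintro p ⟨w, hw, rfl⟩
        rw [gr_adj] at hw
        rcases hw with hw | hw
        · rw [starCol_eq hw]; simp [hE]
        · rw [Sym2.eq_swap, starCol_eq hw]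
          cases hw
          simp [hE]
      refine (Set.encard_le_encard this).trans ?_
      rw [Set.encard_coe_eq_coe_finsetCard]
      have h1 := Finset.card_insert_le (E (Sum.inr (Sum.inl v)))
        (Finset.univ.image fun a : Fin d => E (Sum.inl a))
      have h2 : (Finset.univ.image fun a : Fin d => E (Sum.inl a)).card ≤ d :=
        Finset.card_image_le.trans (by simp)
      exact_mod_cast h1.trans (by omega)
    · have : pagesAt (Gr d N M) (starCol d N M) (Sum.inr (Sum.inr (S, j))) ⊆
          (((if S.card = d + 1 then S.image fun v => E (Sum.inr (Sum.inl v)) else ∅) :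
            Finset ℕ) : Set ℕ) := by
        rintro p ⟨w, hw, rfl⟩
        rw [gr_adj] at hw
        rcases hw with hw | hw
        · cases hw
        · rw [Sym2.eq_swap, starCol_eq hw]
          cases hw with
          | two v S j h hc =>
            rw [if_pos hc]
            simp only [Finset.coe_image, Set.mem_image, Finset.mem_coe]
            exact ⟨v, h, rfl⟩
      refine (Set.encard_le_encard this).trans ?_
      rw [Set.encard_coe_eq_coe_finsetCard]
      have h2 : ((if S.card = d + 1 then S.image fun v => E (Sum.inr (Sum.inl v)) else ∅) :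
            Finset ℕ).card ≤ d + 1 := by
        split_ifs with hc
        · exact Finset.card_image_le.trans hc.le
        · simp
      exact_mod_cast h2

/-! ### The lower bound for the union page number -/

section lower

variable {G : SimpleGraph V} {pos : V → ℕ} {col : Sym2 V → ℕ}

theorem page_adj {p : ℕ} {x y : V} (h : G.Adj x y) (hc : col s(x, y) = p) :
    (page G col p).Adj x y := by
  unfold page
  rw [SimpleGraph.fromEdgeSet_adj]
  exact ⟨⟨h, hc⟩, h.ne⟩

/-- Two edges of one component of a page do not cross. -/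
theorem no_cross (hU : IsUnionEmbedding G pos col) {p : ℕ} {u v x y : V}
    (h1 : (page G col p).Adj u v) (h2 : (page G col p).Adj x y)
    (hr : (page G col p).Reachable u x) : ¬(pos u < pos x ∧ pos x < pos v ∧ pos v < pos y) := by
  refine hU.2 p ((page G col p).connectedComponentMk u) u v x y ⟨h1, ?_⟩ ⟨h2, ?_⟩
  · intro z hz
    rcases Sym2.mem_iff.1 hz with rfl | rfl
    · rfl
    · exact SimpleGraph.ConnectedComponent.sound h1.symm.reachable
  · intro z hz
    rcases Sym2.mem_iff.1 hz with rfl | rfl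
    · exact SimpleGraph.ConnectedComponent.sound hr.symm
    · exact SimpleGraph.ConnectedComponent.sound (hr.trans h2.reachable).symm

/-- Of two common neighbours (on one page) of `a` and `b` exactly one is between `a` and `b`. -/
theorem between_iff (hU : IsUnionEmbedding G pos col) {p : ℕ} {a b x y : V} (hxy : x ≠ y)
    (hab : pos a < pos b)
    (ax : (page G col p).Adj a x) (bx : (page G col p).Adj b x)
    (ay : (page G col p).Adj a y) (bY : (page G col p).Adj b y) :
    (pos a < pos x ∧ pos x < pos b) ↔ ¬(pos a < pos y ∧ pos y < pos b) := by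
  -- auxiliary statement, symmetric in `x` and `y`
  have key : ∀ x y : V, pos x < pos y →
      (page G col p).Adj a x → (page G col p).Adj b x →
      (page G col p).Adj a y → (page G col p).Adj b y →
      ¬((pos a < pos x ∧ pos x < pos b) ↔ (pos a < pos y ∧ pos y < pos b)) := by
    intro x y hxy ax bx ay bY h
    have rab : (page G col p).Reachable a b := ax.reachable.trans bx.symm.reachable
    have nax : pos a ≠ pos x := fun h => ax.ne (hU.1 h)
    have nbx : pos b ≠ pos x := fun h => bx.ne (hU.1 h)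
    have nay : pos a ≠ pos y := fun h => ay.ne (hU.1 h)
    have nby : pos b ≠ pos y := fun h => bY.ne (hU.1 h)
    -- both inside
    have c1 := no_cross hU ay bx.symm ax.reachable
    -- x < y < a < b
    have c2 := no_cross hU ax.symm bY.symm (ax.symm.reachable.trans ay.reachable)
    -- x < a < b < y
    have c3 := no_cross hU bx.symm ay ax.symm.reachable
    -- a < b < x < y
    have c4 := no_cross hU ax bY rab
    by_cases hx : pos a < pos x ∧ pos x < pos b
    · have hy := h.1 hx
      omega
    · have hy : ¬(pos a < pos y ∧ pos y < pos b) := fun h' => hx (h.2 h')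
      omega
  have hne : pos x ≠ pos y := fun h => hxy (hU.1 h)
  rcases lt_or_gt_of_ne hne with h | h
  · have := key x y h ax bx ay bY
    tauto
  · have := key y x h ay bY ax bx
    tauto

/-- Two vertices have at most two common neighbours on one page. -/
theorem no_three (hU : IsUnionEmbedding G pos col) {p : ℕ} {a b x y z : V} (hab : a ≠ b)
    (hxy : x ≠ y) (hyz : y ≠ z) (hxz : x ≠ z)
    (ax : (page G col p).Adj a x) (bx : (page G col p).Adj b x)
    (ay : (page G col p).Adj a y) (bY : (page G col p).Adj b y)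
    (az : (page G col p).Adj a z) (bz : (page G col p).Adj b z) : False := by
  have hne : pos a ≠ pos b := fun h => hab (hU.1 h)
  rcases lt_or_gt_of_ne hne with h | h
  · have h1 := between_iff hU hxy h ax bx ay bY
    have h2 := between_iff hU hyz h ay bY az bz
    have h3 := between_iff hU hxz h ax bx az bz
    tauto
  · have h1 := between_iff hU hxy h bx ax bY ay
    have h2 := between_iff hU hyz h bY ay bz az
    have h3 := between_iff hU hxz h bx ax bz az
    tauto

/-- Few vertices have two edges of one colour to a given set of `t` common neighbours. -/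
theorem card_bad {ι κ : Type} [Fintype ι] [Fintype κ] [DecidableEq ι] [DecidableEq κ]
    (hU : IsUnionEmbedding G pos col) {q : ℕ} (hq : ∀ e ∈ G.edgeSet, col e < q)
    (T : ι → V) (hT : Function.Injective T) (W : κ → V) (hW : Function.Injective W)
    (hadj : ∀ i k, G.Adj (T i) (W k)) :
    (Finset.univ.filter fun k : κ =>
      ¬Function.Injective fun i => col s(T i, W k)).card ≤
        (Fintype.card ι * Fintype.card ι * q) * 2 := by
  classical
  have hsub : (Finset.univ.filter fun k : κ => ¬Function.Injective fun i => col s(T i, W k)) ⊆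
      ((Finset.univ : Finset (ι × ι)) ×ˢ Finset.range q).biUnion fun t =>
        Finset.univ.filter fun k : κ => t.1.1 ≠ t.1.2 ∧ col s(T t.1.1, W k) = t.2 ∧
          col s(T t.1.2, W k) = t.2 := by
    intro k hk
    rw [Finset.mem_filter] at hk
    have hk := hk.2
    unfold Function.Injective at hk
    push Not at hk
    obtain ⟨i, j, hij, hne⟩ := hk
    rw [Finset.mem_biUnion]
    refine ⟨((i, j), col s(T i, W k)), ?_, ?_⟩
    · rw [Finset.mem_product]
      exact ⟨Finset.mem_univ _, Finset.mem_range.2 (hq _ (hadj i k))⟩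
    · rw [Finset.mem_filter]
      exact ⟨Finset.mem_univ _, hne, rfl, hij.symm⟩
  refine (Finset.card_le_card hsub).trans ?_
  refine (Finset.card_biUnion_le_card_mul _ _ 2 ?_).trans ?_
  · rintro ⟨⟨i, j⟩, p⟩ _
    by_contra hcon
    rw [not_le, Finset.two_lt_card] at hcon
    obtain ⟨x, hx, y, hy, z, hz, hxy, hxz, hyz⟩ := hcon
    simp only [Finset.mem_filter, Finset.mem_univ, true_and] at hx hy hz
    exact no_three hU (fun h => hx.1 (hT h)) (fun h => hxy (hW h)) (fun h => hyz (hW h))
      (fun h => hxz (hW h))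
      (page_adj (hadj i x) hx.2.1) (page_adj (hadj j x) hx.2.2)
      (page_adj (hadj i y) hy.2.1) (page_adj (hadj j y) hy.2.2)
      (page_adj (hadj i z) hz.2.1) (page_adj (hadj j z) hz.2.2)
  · apply le_of_eq
    simp [Fintype.card_prod]

/-- If `w` is joined to `x` and `u` to `x⁻`, `x`, `x⁺` on one page, then `w` is between `x⁻`
and `x⁺`. -/
theorem between (hU : IsUnionEmbedding G pos col) {p : ℕ} {u w x x' x'' : V}
    (h1 : pos x' < pos x) (h2 : pos x < pos x'') (hw' : w ≠ x') (hw'' : w ≠ x'')
    (hwu : w ≠ u)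
    (wx : (page G col p).Adj w x) (ux : (page G col p).Adj u x) (ux' : (page G col p).Adj u x')
    (ux'' : (page G col p).Adj u x'') : pos x' < pos w ∧ pos w < pos x'' := by
  have n1 : pos w ≠ pos x' := fun h => hw' (hU.1 h)
  have n2 : pos w ≠ pos x'' := fun h => hw'' (hU.1 h)
  have n3 : pos w ≠ pos u := fun h => hwu (hU.1 h)
  have n5 : pos u ≠ pos x := fun h => ux.ne (hU.1 h)
  have rx : (page G col p).Reachable u x := ux.reachable
  have rw' : (page G col p).Reachable u w := ux.reachable.trans wx.symm.reachable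
  have rx' : (page G col p).Reachable u x' := ux'.reachable
  have rx'' : (page G col p).Reachable u x'' := ux''.reachable
  constructor
  · by_contra hlt
    have hlt : pos w < pos x' := lt_of_le_of_ne (not_lt.1 hlt) n1
    rcases lt_or_gt_of_ne n3 with h | h
    · rcases lt_or_gt_of_ne n5 with h' | h'
      · exact no_cross hU wx ux'' rw'.symm ⟨h, h', h2⟩
      · exact no_cross hU wx ux'.symm (rw'.symm.trans rx') ⟨hlt, h1, h'⟩
    · exact no_cross hU ux' wx rw' ⟨h, hlt, h1⟩
  · by_contra hlt
    have hlt : pos x'' < pos w := lt_of_le_of_ne (not_lt.1 hlt) n2.symm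
    rcases lt_or_gt_of_ne n3 with h | h
    · exact no_cross hU wx.symm ux''.symm (rx.symm.trans rx'') ⟨h2, hlt, h⟩
    · rcases lt_or_gt_of_ne n5 with h' | h'
      · exact no_cross hU ux'' wx.symm rx ⟨h', h2, hlt⟩
      · exact no_cross hU ux'.symm wx.symm (rx'.symm.trans rx) ⟨h1, h', h⟩

end lower

theorem le_pnUnion (d N M : ℕ) (hN : (d * d * (2 * d)) * 2 + (2 * d) ^ d * (2 * d + 2) < N)
    (hM : ((d + 1) * (d + 1) * (2 * d)) * 2 < M) : 2 * d ≤ pnUnion (Gr d N M) := by
  classical
  -- the set in the definition is not empty, so its infimum is attained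
  have hne : {k | ∃ (pos : Vx d N M → ℕ) (col : Sym2 (Vx d N M) → ℕ),
      IsUnionEmbedding (Gr d N M) pos col ∧ ∀ e ∈ (Gr d N M).edgeSet, col e < k}.Nonempty := by
    refine ⟨Fintype.card (Sym2 (Vx d N M)), fun x => (Fintype.equivFin (Vx d N M) x : ℕ),
      fun e => (Fintype.equivFin (Sym2 (Vx d N M)) e : ℕ), ⟨?_, ?_⟩, ?_⟩
    · intro x y hxy
      exact (Fintype.equivFin (Vx d N M)).injective (Fin.ext hxy)
    · rintro p C u v x y ⟨h1, _⟩ ⟨h2, _⟩ ⟨h3, h4, h5⟩
      unfold page at h1 h2
      rw [SimpleGraph.edgeSet_fromEdgeSet] at h1 h2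
      have h6 : s(u, v) = s(x, y) := by
        apply (Fintype.equivFin (Sym2 (Vx d N M))).injective
        apply Fin.ext
        exact h1.1.2.trans h2.1.2.symm
      rcases Sym2.eq_iff.1 h6 with ⟨rfl, rfl⟩ | ⟨rfl, rfl⟩ <;> omega
    · intro e _
      exact (Fintype.equivFin (Sym2 (Vx d N M)) e).2
  obtain ⟨pos, col, hU, hq⟩ := Nat.sInf_mem hne
  change ∀ e ∈ (Gr d N M).edgeSet, col e < pnUnion (Gr d N M) at hq
  by_contra hlt
  rw [not_le] at hlt
  set q := pnUnion (Gr d N M) with hqdef
  have hq2 : ∀ e ∈ (Gr d N M).edgeSet, col e < 2 * d := fun e he => (hq e he).trans hlt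
  have adj01 : ∀ (a : Fin d) (v : Fin N), (Gr d N M).Adj (Sum.inl a) (Sum.inr (Sum.inl v)) :=
    fun a v => gr_adj.2 (Or.inl (Down.one a v))
  -- good vertices of level one
  have hbad := card_bad hU hq2 (fun a : Fin d => (Sum.inl a : Vx d N M)) Sum.inl_injective
    (fun v : Fin N => (Sum.inr (Sum.inl v) : Vx d N M))
    (Sum.inr_injective.comp Sum.inl_injective) adj01
  rw [Fintype.card_fin] at hbad
  set good : Finset (Fin N) := Finset.univ.filter fun v : Fin N =>
    Function.Injective fun a : Fin d => col s((Sum.inl a : Vx d N M), Sum.inr (Sum.inl v))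
    with hgood
  have hgoodcard : (2 * d) ^ d * (2 * d + 2) < good.card := by
    have h1 := Finset.card_filter_add_card_filter_not (s := (Finset.univ : Finset (Fin N)))
      (fun v : Fin N => Function.Injective fun a : Fin d =>
        col s((Sum.inl a : Vx d N M), Sum.inr (Sum.inl v)))
    rw [Finset.card_univ, Fintype.card_fin] at h1
    change good.card + _ = N at h1
    omega
  -- many of them with the same pattern
  obtain ⟨β, -, hβ⟩ := Finset.exists_lt_card_fiber_of_mul_lt_card_of_maps_to
    (s := good) (t := (Finset.univ : Finset (Fin d → Fin (2 * d)))) (n := 2 * d + 2)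
    (f := fun v a => ⟨col s((Sum.inl a : Vx d N M), Sum.inr (Sum.inl v)), hq2 _ (adj01 a v)⟩)
    (fun _ _ => Finset.mem_univ _) (by
      rw [Finset.card_univ, Fintype.card_fun, Fintype.card_fin, Fintype.card_fin]
      exact hgoodcard)
  set F := good.filter fun v => (fun a => (⟨col s((Sum.inl a : Vx d N M), Sum.inr (Sum.inl v)),
    hq2 _ (adj01 a v)⟩ : Fin (2 * d))) = β with hF
  have hFβ : ∀ v ∈ F, ∀ a, col s((Sum.inl a : Vx d N M), Sum.inr (Sum.inl v)) = (β a : ℕ) := by
    intro v hv a
    have h1 := (Finset.mem_filter.1 hv).2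
    have h2 := congrFun h1 a
    exact congrArg Fin.val h2
  have hFgood : ∀ v ∈ F, v ∈ good := fun v hv => (Finset.mem_filter.1 hv).1
  -- sort them
  set P : Finset ℕ := F.image fun v => pos (Sum.inr (Sum.inl v)) with hP
  have hPcard : 2 * d + 3 ≤ P.card := by
    rw [hP, Finset.card_image_of_injective]
    · exact hβ
    · exact hU.1.comp (Sum.inr_injective.comp Sum.inl_injective)
  have hmem : ∀ i, P.orderEmbOfCardLe hPcard i ∈ P := fun i =>
    Finset.orderEmbOfCardLe_mem P hPcard i
  have hex : ∀ i : Fin (2 * d + 3), ∃ v : Fin N, v ∈ F ∧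
      pos (Sum.inr (Sum.inl v)) = P.orderEmbOfCardLe hPcard i := by
    exact fun i => Finset.mem_image.1 (hmem i)
  choose x hxF hxpos using hex
  have hxlt : ∀ i j : Fin (2 * d + 3), i < j →
      pos (Sum.inr (Sum.inl (x i))) < pos (Sum.inr (Sum.inl (x j))) := by
    intro i j hij
    rw [hxpos, hxpos]
    exact (P.orderEmbOfCardLe hPcard).strictMono hij
  have hxinj : Function.Injective x := by
    intro i j hij
    rcases lt_trichotomy i j with h | h | h
    · exact absurd (hxlt i j h) (by rw [hij]; exact lt_irrefl _)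
    · exact h
    · exact absurd (hxlt j i h) (by rw [hij]; exact lt_irrefl _)
  -- every second one
  set y : Fin (d + 1) → Fin N := fun i => x ⟨2 * i + 1, by omega⟩ with hy
  have hyinj : Function.Injective y := by
    intro i j hij
    have h1 := hxinj hij
    have h2 : 2 * (i : ℕ) + 1 = 2 * j + 1 := congrArg Fin.val h1
    exact Fin.ext (by omega)
  set S : Finset (Fin N) := Finset.univ.image y with hS
  have hScard : S.card = d + 1 := by
    rw [hS, Finset.card_image_of_injective _ hyinj, Finset.card_univ, Fintype.card_fin]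
  have adj12 : ∀ (i : Fin (d + 1)) (j : Fin M),
      (Gr d N M).Adj (Sum.inr (Sum.inl (y i))) (Sum.inr (Sum.inr (S, j))) := fun i j =>
    gr_adj.2 (Or.inl (Down.two (y i) S j (Finset.mem_image_of_mem _ (Finset.mem_univ _)) hScard))
  have hbad2 := card_bad hU hq2 (fun i : Fin (d + 1) => (Sum.inr (Sum.inl (y i)) : Vx d N M))
    (Sum.inr_injective.comp (Sum.inl_injective.comp hyinj))
    (fun j : Fin M => (Sum.inr (Sum.inr (S, j)) : Vx d N M))
    (fun j j' h => by
      have h1 := Sum.inr_injective (Sum.inr_injective h)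
      exact (Prod.mk.inj h1).2) adj12
  rw [Fintype.card_fin] at hbad2
  obtain ⟨j, hj⟩ : ∃ j : Fin M, Function.Injective fun i : Fin (d + 1) =>
      col s((Sum.inr (Sum.inl (y i)) : Vx d N M), Sum.inr (Sum.inr (S, j))) := by
    by_contra hcon
    push Not at hcon
    have : (Finset.univ.filter fun j : Fin M => ¬Function.Injective fun i : Fin (d + 1) =>
      col s((Sum.inr (Sum.inl (y i)) : Vx d N M), Sum.inr (Sum.inr (S, j)))) = Finset.univ := by
      apply Finset.filter_true_of_mem
      intro j _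
      exact hcon j
    rw [this, Finset.card_univ, Fintype.card_fin] at hbad2
    omega
  set w : Vx d N M := Sum.inr (Sum.inr (S, j)) with hw
  set c : Fin (d + 1) → ℕ := fun i => col s((Sum.inr (Sum.inl (y i)) : Vx d N M), w) with hc
  have hβinj : Function.Injective fun a => (β a : ℕ) := by
    have h1 := hFgood _ (hxF ⟨0, by omega⟩)
    rw [hgood, Finset.mem_filter] at h1
    intro a b hab
    apply h1.2
    change col _ = col _
    rw [hFβ _ (hxF _) a, hFβ _ (hxF _) b]
    exact hab
  -- a colour of a center forces `w` to be near the neighbour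
  have hnear : ∀ (i : Fin (d + 1)) (a : Fin d), c i = β a →
      pos (Sum.inr (Sum.inl (x ⟨2 * i, by omega⟩))) < pos w ∧
        pos w < pos (Sum.inr (Sum.inl (x ⟨2 * i + 2, by omega⟩))) := by
    intro i a hia
    have hpa : ∀ k : Fin (2 * d + 3),
        (page (Gr d N M) col (β a)).Adj (Sum.inl a) (Sum.inr (Sum.inl (x k))) := fun k =>
      page_adj (adj01 a (x k)) (hFβ _ (hxF k) a)
    refine between hU (x := Sum.inr (Sum.inl (y i))) (u := Sum.inl a) (p := β a) ?_ ?_ ?_ ?_ ?_
      ?_ (hpa _) (hpa _) (hpa _)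
    · exact hxlt _ _ (by rw [Fin.lt_def]; change 2 * (i : ℕ) < 2 * i + 1; omega)
    · exact hxlt _ _ (by rw [Fin.lt_def]; change 2 * (i : ℕ) + 1 < 2 * i + 2; omega)
    · intro h; simp [hw] at h
    · intro h; simp [hw] at h
    · intro h; simp [hw] at h
    · exact (page_adj (adj12 i j) hia).symm
  -- count the colours
  set O : Finset ℕ := Finset.univ.image fun a => (β a : ℕ) with hO
  set A : Finset ℕ := Finset.univ.image c with hA
  have hOc : O.card = d := by
    rw [hO, Finset.card_image_of_injective _ hβinj, Finset.card_univ, Fintype.card_fin]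
  have hAc : A.card = d + 1 := by
    rw [hA, Finset.card_image_of_injective _ hj, Finset.card_univ, Fintype.card_fin]
  have hOA : (O ∩ A).card ≤ 1 := by
    rw [Finset.card_le_one]
    intro p hp p' hp'
    rw [Finset.mem_inter, hO, hA, Finset.mem_image, Finset.mem_image] at hp hp'
    obtain ⟨⟨a, _, ha⟩, ⟨i, _, hi⟩⟩ := hp
    obtain ⟨⟨a', _, ha'⟩, ⟨i', _, hi'⟩⟩ := hp'
    have h1 := hnear i a (hi.trans ha.symm)
    have h2 := hnear i' a' (hi'.trans ha'.symm)
    rcases lt_trichotomy i i' with h | h | h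
    · exfalso
      have h3 : pos (Sum.inr (Sum.inl (x ⟨2 * i + 2, by omega⟩))) ≤
          pos (Sum.inr (Sum.inl (x ⟨2 * i' , by omega⟩))) := by
        rcases eq_or_lt_of_le (show 2 * (i : ℕ) + 2 ≤ 2 * i' by
          have := Fin.lt_def.1 h; omega) with h4 | h4
        · have : (⟨2 * i + 2, by omega⟩ : Fin (2 * d + 3)) = ⟨2 * i', by omega⟩ := Fin.ext h4
          rw [this]
        · exact (hxlt _ _ (Fin.lt_def.2 h4)).le
      omega
    · rw [← hi, ← hi', h]
    · exfalso
      have h3 : pos (Sum.inr (Sum.inl (x ⟨2 * i' + 2, by omega⟩))) ≤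
          pos (Sum.inr (Sum.inl (x ⟨2 * i , by omega⟩))) := by
        rcases eq_or_lt_of_le (show 2 * (i' : ℕ) + 2 ≤ 2 * i by
          have := Fin.lt_def.1 h; omega) with h4 | h4
        · have : (⟨2 * i' + 2, by omega⟩ : Fin (2 * d + 3)) = ⟨2 * i, by omega⟩ := Fin.ext h4
          rw [this]
        · exact (hxlt _ _ (Fin.lt_def.2 h4)).le
      omega
  have hsub : O ∪ A ⊆ Finset.range q := by
    intro p hp
    rw [Finset.mem_range]
    rcases Finset.mem_union.1 hp with h | h
    · rw [hO, Finset.mem_image] at h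
      obtain ⟨a, _, rfl⟩ := h
      have := hq _ ((Gr d N M).mem_edgeSet.2 (adj01 a (x ⟨0, Nat.succ_pos _⟩)))
      rwa [hFβ _ (hxF _) a] at this
    · rw [hA, Finset.mem_image] at h
      obtain ⟨i, _, rfl⟩ := h
      exact hq _ (adj12 i j)
  have h1 := Finset.card_union_add_card_inter O A
  have h2 := Finset.card_le_card hsub
  rw [Finset.card_range] at h2
  omega

/-- For every `d ≥ 1` some graph has local page number at most `d + 1` and union page number at
least `2 d`; in particular `ρ ≥ 2`. -/
theorem result :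
    (∀ d : ℕ, 1 ≤ d → ∃ (W : Type) (_ : Finite W) (G : SimpleGraph W), G ≠ ⊥ ∧
      pnLocal G ≤ d + 1 ∧ 2 * d ≤ pnUnion G) ∧ 2 ≤ rho := by
  have main : ∀ d : ℕ, 1 ≤ d → ∃ (W : Type) (_ : Finite W) (G : SimpleGraph W), G ≠ ⊥ ∧
      pnLocal G ≤ d + 1 ∧ 2 * d ≤ pnUnion G := by
    intro d hd
    refine ⟨Vx d ((d * d * (2 * d)) * 2 + (2 * d) ^ d * (2 * d + 2) + 1)
      (((d + 1) * (d + 1) * (2 * d)) * 2 + 1), inferInstance, Gr d _ _, ?_,
      pnLocal_le _ _ _, le_pnUnion _ _ _ (Nat.lt_succ_self _) (Nat.lt_succ_self _)⟩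
    intro h
    have h1 : (Gr d ((d * d * (2 * d)) * 2 + (2 * d) ^ d * (2 * d + 2) + 1)
      (((d + 1) * (d + 1) * (2 * d)) * 2 + 1)).Adj (Sum.inl ⟨0, hd⟩)
        (Sum.inr (Sum.inl ⟨0, Nat.succ_pos _⟩)) := gr_adj.2 (Or.inl (Down.one _ _))
    rw [h] at h1
    exact h1
  refine ⟨main, ?_⟩
  -- the ratios `2 d / (d + 1)` tend to `2`
  have hle : ∀ d : ℕ, 1 ≤ d → (2 * d : ℝ≥0∞) / (d + 1) ≤ rho := by
    intro d hd
    obtain ⟨W, hW, G, hG, h1, h2⟩ := main d hd
    have h3 : (pnUnion G : ℝ≥0∞) / (pnLocal G : ℝ≥0∞) ≤ rho :=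
      le_iSup_of_le W (le_iSup_of_le hW (le_iSup_of_le G (le_iSup_of_le hG le_rfl)))
    refine le_trans ?_ h3
    refine ENNReal.div_le_div ?_ ?_
    · exact_mod_cast h2
    · exact_mod_cast h1
  refine ENNReal.le_of_forall_pos_le_add ?_
  intro ε hε _
  obtain ⟨n, hn⟩ := exists_nat_one_div_lt (show (0 : ℝ) < ε / 2 by positivity)
  refine le_trans ?_ (add_le_add_left (hle (n + 1) (by omega)) _)
  have h1 : (2 : ℝ≥0∞) = ENNReal.ofReal 2 := by norm_num
  have h2 : (2 * ((n + 1 : ℕ) : ℝ≥0∞)) / (((n + 1 : ℕ) : ℝ≥0∞) + 1) =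
      ENNReal.ofReal (2 * ((n : ℝ) + 1) / ((n : ℝ) + 1 + 1)) := by
    have hcast : ((n + 1 : ℕ) : ℝ≥0∞) = ENNReal.ofReal ((n : ℝ) + 1) := by
      rw [← ENNReal.ofReal_natCast]
      push_cast
      rfl
    rw [hcast, ENNReal.ofReal_div_of_pos (by positivity), ENNReal.ofReal_mul (by norm_num),
      ENNReal.ofReal_add (p := (n : ℝ) + 1) (by positivity) (by norm_num)]
    simp
  have h3 : (ε : ℝ≥0∞) = ENNReal.ofReal (ε : ℝ) := by simp
  rw [h2, h3, h1, ← ENNReal.ofReal_add (by positivity) (by positivity)]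
  apply ENNReal.ofReal_le_ofReal
  have h4 : (1 : ℝ) / (n + 1) < ε / 2 := hn
  have h5 : (0 : ℝ) < (n : ℝ) + 1 := by positivity
  have h6 : (1 : ℝ) / ((n : ℝ) + 1 + 1) ≤ 1 / (n + 1) := by
    apply one_div_le_one_div_of_le h5
    linarith
  have h7 : 2 * ((n : ℝ) + 1) / ((n : ℝ) + 1 + 1) = 2 - 2 * (1 / ((n : ℝ) + 1 + 1)) := by
    field_simp
    ring
  rw [h7]
  linarith

end Pool.Agent.Results.MP_1a9d8b_co.RatioAtLeastTwo
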